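import Mathlib

set_option autoImplicit false

namespace Pool.Agent.Work.MP_b9f336_ag

open MvPolynomial

variable {n : ℕ}

/-- difference of two exponent vectors, as an integer vector -/
def df (a b : Fin n →₀ ℕ) : Fin n → ℤ := fun i => (a i : ℤ) - (b i : ℤ)

/-- the lattice ideal of `L` -/
noncomputable def latIdeal (L : Submodule ℤ (Fin n → ℤ)) : Ideal (MvPolynomial (Fin n) ℚ) :=
  Ideal.span {p | ∃ u ∈ L, p =
        MvPolynomial.monomial (Finsupp.equivFunOnFinite.symm (fun i => (u i).toNat)) (1 : ℚ)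
        - MvPolynomial.monomial (Finsupp.equivFunOnFinite.symm (fun i => (-u i).toNat)) (1 : ℚ)}

theorem binom_mem (L : Submodule ℤ (Fin n → ℤ)) (a b : Fin n →₀ ℕ) (h : df a b ∈ L) :
    monomial a (1 : ℚ) - monomial b (1 : ℚ) ∈ latIdeal L := by
  have ha : a = (a ⊓ b) + (Finsupp.equivFunOnFinite.symm (fun i => (df a b i).toNat)) := by
    ext i
    simp [df, Finsupp.inf_apply]
    omega
  have hb : b = (a ⊓ b) + (Finsupp.equivFunOnFinite.symm (fun i => (- df a b i).toNat)) := by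
    ext i
    simp [df, Finsupp.inf_apply]
    omega
  have : monomial a (1 : ℚ) - monomial b (1 : ℚ) = monomial (a ⊓ b) (1 : ℚ) *
      (monomial (Finsupp.equivFunOnFinite.symm (fun i => (df a b i).toNat)) (1 : ℚ)
        - monomial (Finsupp.equivFunOnFinite.symm (fun i => (- df a b i).toNat)) (1 : ℚ)) := by
    rw [mul_sub, monomial_mul, monomial_mul, mul_one, ← ha, ← hb]
  rw [this]
  exact Ideal.mul_mem_left _ _ (Ideal.subset_span ⟨_, h, rfl⟩)

/-- the class map -/
noncomputable def cls (L : Submodule ℤ (Fin n → ℤ)) : (Fin n →₀ ℕ) →+ ((Fin n → ℤ) ⧸ L) where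
  toFun a := L.mkQ (fun i => (a i : ℤ))
  map_zero' := by
    have : (fun i : Fin n => (((0 : Fin n →₀ ℕ) i : ℕ) : ℤ)) = 0 := by ext i; simp
    rw [this]; simp
  map_add' a b := by
    rw [← map_add]
    congr 1

theorem cls_eq_iff (L : Submodule ℤ (Fin n → ℤ)) (a b : Fin n →₀ ℕ) :
    cls L a = cls L b ↔ df a b ∈ L := by
  change L.mkQ _ = L.mkQ _ ↔ _
  rw [← sub_eq_zero, ← map_sub]
  simp only [Submodule.mkQ_apply]
  rw [Submodule.Quotient.mk_eq_zero]
  rfl

theorem partner (L : Submodule ℤ (Fin n → ℤ)) (f : MvPolynomial (Fin n) ℚ) (hf : f ∈ latIdeal L)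
    (a : Fin n →₀ ℕ) (ha : a ∈ f.support) : ∃ b ∈ f.support, b ≠ a ∧ df a b ∈ L := by
  classical
  by_contra hcon
  push Not at hcon
  let φ : MvPolynomial (Fin n) ℚ →+* AddMonoidAlgebra ℚ ((Fin n → ℤ) ⧸ L) :=
    AddMonoidAlgebra.mapDomainRingHom ℚ (cls L)
  have hφm : ∀ (b : Fin n →₀ ℕ) (c : ℚ), φ (monomial b c) = AddMonoidAlgebra.single (cls L b) c := by
    intro b c
    simp [φ, MvPolynomial.monomial]
  have hker : latIdeal L ≤ RingHom.ker φ := by
    unfold latIdeal
    rw [Ideal.span_le]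
    rintro p ⟨u, hu, rfl⟩
    rw [SetLike.mem_coe, RingHom.mem_ker, map_sub, hφm, hφm, sub_eq_zero]
    congr 1
    rw [cls_eq_iff]
    convert hu using 1
    ext i
    simp [df]
  have h0 : φ f = 0 := hker hf
  have h1 : φ f = ∑ b ∈ f.support, AddMonoidAlgebra.single (cls L b) (coeff b f) := by
    conv_lhs => rw [f.as_sum]
    rw [map_sum]
    exact Finset.sum_congr rfl (fun b _ => hφm b _)
  rw [h1] at h0
  have h2 := congrArg (fun g => AddMonoidAlgebra.coeff g (cls L a)) h0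
  simp only [AddMonoidAlgebra.coeff_sum, AddMonoidAlgebra.coeff_single, Finsupp.finsetSum_apply,
    Finsupp.single_apply, AddMonoidAlgebra.coeff_zero, Finsupp.coe_zero, Pi.zero_apply] at h2
  rw [Finset.sum_eq_single a] at h2
  · simp at h2
    exact (mem_support_iff.mp ha) h2
  · intro b hb hba
    rw [if_neg]
    intro h
    exact hcon b hb hba ((cls_eq_iff L a b).mp h.symm)
  · intro h; exact absurd ha h

/-- the weight of an exponent vector -/
noncomputable def wt (w : Fin n → ℝ) (m : Fin n →₀ ℕ) : ℝ := ∑ i, w i * ((m i : ℕ) : ℝ)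

/-- initial form -/
noncomputable def inF (w : Fin n → ℝ) (f : MvPolynomial (Fin n) ℚ) : MvPolynomial (Fin n) ℚ :=
  ∑ m ∈ (MvPolynomial.support f).filter
              (fun m => ∀ m' ∈ MvPolynomial.support f,
                ∑ i, w i * ((m' i : ℕ) : ℝ) ≤ ∑ i, w i * ((m i : ℕ) : ℝ)),
            MvPolynomial.monomial m (MvPolynomial.coeff m f)

/-- pairing of a weight vector with an integer vector -/
noncomputable def pr (w : Fin n → ℝ) (u : Fin n → ℤ) : ℝ := ∑ i, w i * (u i : ℝ)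

theorem wt_sub (w : Fin n → ℝ) (a b : Fin n →₀ ℕ) : wt w a - wt w b = pr w (df a b) := by
  unfold wt pr df
  rw [← Finset.sum_sub_distrib]
  refine Finset.sum_congr rfl (fun i _ => ?_)
  push_cast
  ring

theorem wt_add (w : Fin n → ℝ) (a b : Fin n →₀ ℕ) : wt w (a + b) = wt w a + wt w b := by
  unfold wt
  rw [← Finset.sum_add_distrib]
  refine Finset.sum_congr rfl (fun i _ => ?_)
  simp
  ring

theorem coeff_inF (w : Fin n → ℝ) (f : MvPolynomial (Fin n) ℚ) (a : Fin n →₀ ℕ)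
    (h : coeff a (inF w f) ≠ 0) : a ∈ f.support ∧ ∀ b ∈ f.support, wt w b ≤ wt w a := by
  classical
  unfold inF at h
  rw [coeff_sum] at h
  obtain ⟨m, hm, hm'⟩ := Finset.exists_ne_zero_of_sum_ne_zero h
  rw [coeff_monomial] at hm'
  have : m = a := by
    by_contra hne
    rw [if_neg hne] at hm'
    exact hm' rfl
  subst this
  rw [Finset.mem_filter] at hm
  exact hm

/-- initial ideal for the weight `w` -/
noncomputable def inW (w : Fin n → ℝ) (I : Ideal (MvPolynomial (Fin n) ℚ)) :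
    Ideal (MvPolynomial (Fin n) ℚ) := Ideal.span {g | ∃ f ∈ I, g = inF w f}

/-- initial ideal for a monomial order -/
noncomputable def inO (ord : MonomialOrder (Fin n)) (I : Ideal (MvPolynomial (Fin n) ℚ)) :
    Ideal (MvPolynomial (Fin n) ℚ) :=
  Ideal.span {g | ∃ f ∈ I, f ≠ 0 ∧ g = MvPolynomial.monomial (ord.degree f) (1 : ℚ)}

theorem supp_binom (a b : Fin n →₀ ℕ) (hab : a ≠ b) :
    (monomial a (1 : ℚ) - monomial b (1 : ℚ)).support = {a, b} := by
  classical
  ext c
  rw [mem_support_iff, coeff_sub, coeff_monomial, coeff_monomial]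
  simp only [Finset.mem_insert, Finset.mem_singleton]
  by_cases h1 : a = c
  · subst h1
    simp [hab.symm]
  · by_cases h2 : b = c
    · subst h2
      simp [hab]
    · simp [h1, h2, Ne.symm h1, Ne.symm h2]

theorem mono_mem_inO (L : Submodule ℤ (Fin n → ℤ)) (ord : MonomialOrder (Fin n))
    (a b : Fin n →₀ ℕ) (h : df a b ∈ L) (hlt : ord.toSyn b < ord.toSyn a) :
    monomial a (1 : ℚ) ∈ inO ord (latIdeal L) := by
  classical
  have hab : a ≠ b := by rintro rfl; exact lt_irrefl _ hlt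
  refine Ideal.subset_span ⟨_, binom_mem L a b h, ?_, ?_⟩
  · intro h0
    have := supp_binom a b hab
    rw [h0] at this
    have h3 : a ∈ ({a, b} : Finset (Fin n →₀ ℕ)) := Finset.mem_insert_self _ _
    rw [← this] at h3
    simp at h3
  · congr 2
    apply ord.toSyn.injective
    unfold MonomialOrder.degree
    rw [AddEquiv.apply_symm_apply, supp_binom a b hab]
    rw [Finset.sup_insert, Finset.sup_singleton, sup_eq_left.mpr hlt.le]

theorem mono_mem_inW (L : Submodule ℤ (Fin n → ℤ)) (w : Fin n → ℝ)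
    (a b : Fin n →₀ ℕ) (h : df a b ∈ L) (hlt : wt w b < wt w a) :
    monomial a (1 : ℚ) ∈ inW w (latIdeal L) := by
  classical
  have hab : a ≠ b := by rintro rfl; exact lt_irrefl _ hlt
  refine Ideal.subset_span ⟨_, binom_mem L a b h, ?_⟩
  unfold inF
  have hfil : (Finset.filter (fun m => ∀ m' ∈ MvPolynomial.support
      (monomial a (1 : ℚ) - monomial b (1 : ℚ)),
                ∑ i, w i * ((m' i : ℕ) : ℝ) ≤ ∑ i, w i * ((m i : ℕ) : ℝ))
      (MvPolynomial.support (monomial a (1 : ℚ) - monomial b (1 : ℚ)))) = {a} := by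
    rw [supp_binom a b hab]
    ext c
    simp only [Finset.mem_filter, Finset.mem_insert, Finset.mem_singleton, forall_eq_or_imp,
      forall_eq]
    constructor
    · rintro ⟨hc | hc, h1, h2⟩
      · exact hc
      · subst hc
        exact absurd hlt (not_lt.mpr h1)
    · intro hc
      subst hc
      exact ⟨Or.inl rfl, le_rfl, hlt.le⟩
  rw [hfil]
  rw [Finset.sum_singleton, coeff_sub, coeff_monomial, coeff_monomial, if_pos rfl,
    if_neg hab.symm, sub_zero]

/-- the two initial ideals agree for weights that improve on every non-minimal exponent -/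
theorem inW_eq_inO (L : Submodule ℤ (Fin n → ℤ)) (ord : MonomialOrder (Fin n))
    (w : Fin n → ℝ)
    (hstar : ∀ a b : Fin n →₀ ℕ, df a b ∈ L → ord.toSyn b < ord.toSyn a →
      ∃ c : Fin n →₀ ℕ, df a c ∈ L ∧ ord.toSyn c < ord.toSyn a ∧ wt w c < wt w a) :
    inW w (latIdeal L) = inO ord (latIdeal L) := by
  classical
  have df_symm : ∀ a b : Fin n →₀ ℕ, df a b ∈ L → df b a ∈ L := by
    intro a b h
    have : df b a = - df a b := by ext i; simp [df]
    rw [this]; exact L.neg_mem h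
  have df_trans : ∀ a b c : Fin n →₀ ℕ, df a b ∈ L → df b c ∈ L → df a c ∈ L := by
    intro a b c h1 h2
    have : df a c = df a b + df b c := by ext i; simp [df]
    rw [this]; exact L.add_mem h1 h2
  have key : ∀ m : Fin n →₀ ℕ, (∀ b, df m b ∈ L → ¬ ord.toSyn b < ord.toSyn m) →
      ∀ s : ord.syn, ∀ a : Fin n →₀ ℕ, ord.toSyn a = s → df a m ∈ L → a ≠ m → wt w m < wt w a := by
    intro m hm s
    induction s using WellFoundedLT.induction with
    | ind s ih =>
      intro a has ham hne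
      have hlt : ord.toSyn m < ord.toSyn a := by
        rcases lt_trichotomy (ord.toSyn m) (ord.toSyn a) with h | h | h
        · exact h
        · exact absurd (ord.toSyn.injective h).symm hne
        · exact absurd h (hm a (df_symm _ _ ham))
      obtain ⟨c, hc1, hc2, hc3⟩ := hstar a m ham hlt
      by_cases hcm : c = m
      · rw [← hcm]; exact hc3
      · have := ih (ord.toSyn c) (by rw [← has]; exact hc2) c rfl
          (df_trans _ _ _ (df_symm _ _ hc1) ham) hcm
        exact this.trans hc3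
  apply le_antisymm
  · unfold inW
    rw [Ideal.span_le]
    rintro g ⟨f, hf, rfl⟩
    rw [SetLike.mem_coe]
    rw [(inF w f).as_sum]
    refine Ideal.sum_mem _ (fun m hm => ?_)
    rw [mem_support_iff] at hm
    obtain ⟨hm1, hm2⟩ := coeff_inF w f m hm
    have hmm : monomial m (1 : ℚ) ∈ inO ord (latIdeal L) := by
      by_cases hmin : ∀ b, df m b ∈ L → ¬ ord.toSyn b < ord.toSyn m
      · exfalso
        obtain ⟨b, hb, hbm, hdf⟩ := partner L f hf m hm1
        have := key m hmin _ b rfl (df_symm _ _ hdf) hbm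
        exact absurd (hm2 b hb) (not_le.mpr this)
      · push Not at hmin
        obtain ⟨b, hb1, hb2⟩ := hmin
        exact mono_mem_inO L ord m b hb1 hb2
    have : monomial m (coeff m (inF w f)) = C (coeff m (inF w f)) * monomial m (1 : ℚ) := by
      rw [C_mul_monomial, mul_one]
    rw [this]
    exact Ideal.mul_mem_left _ _ hmm
  · unfold inO
    rw [Ideal.span_le]
    rintro g ⟨f, hf, hf0, rfl⟩
    rw [SetLike.mem_coe]
    have hdeg : ord.degree f ∈ f.support := ord.degree_mem_support hf0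
    obtain ⟨b, hb, hbm, hdf⟩ := partner L f hf _ hdeg
    have hlt : ord.toSyn b < ord.toSyn (ord.degree f) := by
      refine lt_of_le_of_ne (ord.le_degree hb) ?_
      intro h
      exact hbm (ord.toSyn.injective h)
    obtain ⟨c, hc1, hc2, hc3⟩ := hstar _ b hdf hlt
    exact mono_mem_inW L w _ c hc1 hc3

/-- strict minimality in the class -/
def SMin (L : Submodule ℤ (Fin n → ℤ)) (w : Fin n → ℝ) (a : Fin n →₀ ℕ) : Prop :=
  ∀ b : Fin n →₀ ℕ, df a b ∈ L → b ≠ a → wt w a < wt w b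

theorem SMin_of_add (L : Submodule ℤ (Fin n → ℤ)) (w : Fin n → ℝ) (a b : Fin n →₀ ℕ)
    (h : SMin L w (a + b)) : SMin L w b := by
  intro c hc hne
  have := h (a + c) (by
    have : df (a + b) (a + c) = df b c := by ext i; simp [df]
    rw [this]; exact hc) (by intro h; exact hne (add_left_cancel h))
  rw [wt_add, wt_add] at this
  linarith

/-- polynomials without strictly minimal exponents -/
noncomputable def JI (L : Submodule ℤ (Fin n → ℤ)) (w : Fin n → ℝ) :
    Ideal (MvPolynomial (Fin n) ℚ) where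
  carrier := {h | ∀ a, SMin L w a → coeff a h = 0}
  add_mem' := by
    intro p q hp hq a ha
    rw [coeff_add, hp a ha, hq a ha, add_zero]
  zero_mem' := by
    intro a _
    simp
  smul_mem' := by
    classical
    intro c p hp a ha
    rw [smul_eq_mul, coeff_mul]
    refine Finset.sum_eq_zero (fun x hx => ?_)
    rw [Finset.HasAntidiagonal.mem_antidiagonal] at hx
    rw [hp x.2 (SMin_of_add L w x.1 x.2 (by rw [hx]; exact ha)), mul_zero]

theorem inW_le_JI (L : Submodule ℤ (Fin n → ℤ)) (w : Fin n → ℝ) :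
    inW w (latIdeal L) ≤ JI L w := by
  unfold inW
  rw [Ideal.span_le]
  rintro g ⟨f, hf, rfl⟩
  intro a ha
  by_contra hne
  obtain ⟨h1, h2⟩ := coeff_inF w f a hne
  obtain ⟨b, hb, hba, hdf⟩ := partner L f hf a h1
  exact absurd (h2 b hb) (not_le.mpr (ha b hdf hba))

/-- a binomial whose fibre has two elements gives a valid inequality -/
theorem pr_nonneg_of_eq (L : Submodule ℤ (Fin n → ℤ)) (ord : MonomialOrder (Fin n))
    (w : Fin n → ℝ) (heq : inW w (latIdeal L) = inO ord (latIdeal L))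
    (a b : Fin n →₀ ℕ) (hab : df a b ∈ L) (hlt : ord.toSyn b < ord.toSyn a)
    (hfib : ∀ c : Fin n →₀ ℕ, df a c ∈ L → c = a ∨ c = b) : 0 ≤ pr w (df a b) := by
  by_contra hneg
  push Not at hneg
  rw [← wt_sub] at hneg
  have h1 : monomial a (1 : ℚ) ∈ JI L w := by
    apply inW_le_JI
    rw [heq]
    exact mono_mem_inO L ord a b hab hlt
  have hs : SMin L w a := by
    intro c hc hne
    rcases hfib c hc with h | h
    · exact absurd h hne
    · rw [h]; linarith
  have := h1 a hs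
  classical
  rw [coeff_monomial, if_pos rfl] at this
  exact one_ne_zero this


/-- the value of the `k`-th linear form at the point `(x, y, z)` -/
def rowv (N : ℤ) (k : ℕ) (v : ℤ × ℤ × ℤ) : ℤ :=
  match k with
  | 0 => v.2.2
  | 1 => N * v.2.2 - v.1
  | 2 => v.2.1 - N * v.1
  | 3 => - v.2.2
  | 4 => v.1 - N * v.2.2
  | (j + 5) =>
    if j % 4 = 0 then v.2.1 - (N + (j / 4 : ℕ)) * v.1
    else if j % 4 = 1 then (N + (j / 4 : ℕ)) * v.1 - v.2.1
    else if j % 4 = 2 then v.2.1 - (N + (j / 4 : ℕ)) * v.1 - (N + (j / 4 : ℕ) + 1) * v.2.2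
    else (N + (j / 4 : ℕ)) * v.1 + (N + (j / 4 : ℕ) + 1) * v.2.2 - v.2.1

theorem rowv_add (N : ℤ) (k : ℕ) (v w : ℤ × ℤ × ℤ) :
    rowv N k (v + w) = rowv N k v + rowv N k w := by
  match k with
  | 0 => simp [rowv]
  | 1 => simp [rowv]; ring
  | 2 => simp [rowv]; ring
  | 3 => simp [rowv]; ring
  | 4 => simp [rowv]; ring
  | (j + 5) =>
    simp only [rowv, Prod.fst_add, Prod.snd_add]
    split_ifs <;> ring

theorem rowv_smul (N : ℤ) (k : ℕ) (c : ℤ) (v : ℤ × ℤ × ℤ) :
    rowv N k (c • v) = c * rowv N k v := by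
  match k with
  | 0 => simp [rowv]
  | 1 => simp [rowv]; ring
  | 2 => simp [rowv]; ring
  | 3 => simp [rowv]
  | 4 => simp [rowv]; ring
  | (j + 5) =>
    simp only [rowv, Prod.smul_fst, Prod.smul_snd, smul_eq_mul]
    split_ifs <;> ring

/-- the parametrisation of the lattice -/
def Phi (N n : ℕ) : (ℤ × ℤ × ℤ) →ₗ[ℤ] (Fin n → ℤ) where
  toFun v i := rowv N i.val v
  map_add' v w := by ext i; exact rowv_add N i.val v w
  map_smul' c v := by ext i; exact rowv_smul N i.val c v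

/-- comparison of all the linear forms at two points -/
def Conf (N : ℤ) (v w : ℤ × ℤ × ℤ) : Prop :=
  v.2.2 ≤ max w.2.2 0 ∧ -v.2.2 ≤ max (-w.2.2) 0 ∧
  N * v.2.2 - v.1 ≤ max (N * w.2.2 - w.1) 0 ∧ v.1 - N * v.2.2 ≤ max (w.1 - N * w.2.2) 0 ∧
  ∀ s : ℤ, N ≤ s → s ≤ 2 * N →
    v.2.1 - s * v.1 ≤ max (w.2.1 - s * w.1) 0 ∧
    s * v.1 - v.2.1 ≤ max (s * w.1 - w.2.1) 0 ∧
    v.2.1 - s * v.1 - (s + 1) * v.2.2 ≤ max (w.2.1 - s * w.1 - (s + 1) * w.2.2) 0 ∧
    s * v.1 + (s + 1) * v.2.2 - v.2.1 ≤ max (s * w.1 + (s + 1) * w.2.2 - w.2.1) 0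

theorem Conf_trans {N : ℤ} {u v w : ℤ × ℤ × ℤ} (h1 : Conf N u v) (h2 : Conf N v w) :
    Conf N u w := by
  have key : ∀ a b c : ℤ, a ≤ max b 0 → b ≤ max c 0 → a ≤ max c 0 := by
    intro a b c h1 h2
    omega
  obtain ⟨a1, a2, a3, a4, a5⟩ := h1
  obtain ⟨b1, b2, b3, b4, b5⟩ := h2
  refine ⟨key _ _ _ a1 b1, key _ _ _ a2 b2, key _ _ _ a3 b3, key _ _ _ a4 b4, ?_⟩
  intro s hs1 hs2
  obtain ⟨c1, c2, c3, c4⟩ := a5 s hs1 hs2
  obtain ⟨d1, d2, d3, d4⟩ := b5 s hs1 hs2
  exact ⟨key _ _ _ c1 d1, key _ _ _ c2 d2, key _ _ _ c3 d3, key _ _ _ c4 d4⟩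

theorem Conf_refl (N : ℤ) (v : ℤ × ℤ × ℤ) : Conf N v v :=
  ⟨le_max_left _ _, le_max_left _ _, le_max_left _ _, le_max_left _ _, fun _ _ _ =>
    ⟨le_max_left _ _, le_max_left _ _, le_max_left _ _, le_max_left _ _⟩⟩

theorem le_of_Conf {N n : ℕ} (hn : n ≤ 4 * N + 9) {v w : ℤ × ℤ × ℤ} (h : Conf N v w) (i : Fin n) :
    Phi N n v i ≤ max (Phi N n w i) 0 := by
  obtain ⟨a1, a2, a3, a4, a5⟩ := h
  change rowv N i.val v ≤ max (rowv N i.val w) 0
  have hi := i.isLt
  generalize hk : i.val = k at hi ⊢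
  match k, hi with
  | 0, _ => exact a1
  | 1, _ => exact a3
  | 2, _ => exact (a5 N le_rfl (by omega)).1
  | 3, _ => exact a2
  | 4, _ => exact a4
  | (j + 5), hj =>
    have h1 : j / 4 ≤ N := by omega
    obtain ⟨c1, c2, c3, c4⟩ := a5 (N + (j / 4 : ℕ)) (by omega) (by omega)
    simp only [rowv]
    split_ifs
    · exact c1
    · exact c2
    · exact c3
    · exact c4

/-- positivity for the lexicographic order -/
def Pos (v : ℤ × ℤ × ℤ) : Prop :=
  0 < v.2.2 ∨ (v.2.2 = 0 ∧ v.1 < 0) ∨ (v.2.2 = 0 ∧ v.1 = 0 ∧ 0 < v.2.1)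

/-- positivity of all functionals in the interior of the cone -/
def InK (N : ℤ) (v : ℤ × ℤ × ℤ) : Prop :=
  ∀ a b c : ℝ, (∀ m : ℤ, N ≤ m → m ≤ 2 * N → 0 < a * m + b * (m : ℝ) ^ 2 + c) → 0 < b →
    0 < - a - 2 * N * b → 0 < a * v.1 + b * v.2.1 + c * v.2.2

theorem inK_left (N : ℤ) (hN : 1 ≤ N) (x y z : ℤ) (hpos : Pos (x, y, z)) (h1 : x ≤ N * z)
    (h2 : 2 * N * x - N ^ 2 * z ≤ y) : InK N (x, y, z) := by
  intro a b c hm hb hp
  have hz : 0 ≤ z := by
    rcases hpos with h | h | h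
    · exact h.le
    · exact h.1.ge
    · exact h.1.ge
  have e : a * (x : ℝ) + b * y + c * z = z * (a * N + b * (N : ℝ) ^ 2 + c) +
      (N * z - x) * (- a - 2 * N * b) + (y - (2 * N * x - N ^ 2 * z)) * b := by ring
  change 0 < a * (x : ℝ) + b * y + c * z
  rw [e]
  have p1 := hm N le_rfl (by omega)
  have hz' : (0 : ℝ) ≤ z := by exact_mod_cast hz
  have h1' : (0 : ℝ) ≤ N * z - x := by
    have : (x : ℝ) ≤ N * z := by exact_mod_cast h1
    linarith
  have h2' : (0 : ℝ) ≤ y - (2 * N * x - N ^ 2 * z) := by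
    have : (2 * N * x - N ^ 2 * z : ℝ) ≤ y := by exact_mod_cast h2
    linarith
  rcases hpos with h | h | h
  · have hz'' : (0 : ℝ) < z := by exact_mod_cast h
    have := mul_pos hz'' p1
    have := mul_nonneg h1' hp.le
    have := mul_nonneg h2' hb.le
    linarith
  · simp only at h
    obtain ⟨h3, h4⟩ := h
    subst h3
    have h4' : (x : ℝ) < 0 := by exact_mod_cast h4
    have h5 : (0 : ℝ) < N * (0 : ℤ) - x := by simp; linarith
    have := mul_pos h5 hp
    have := mul_nonneg h2' hb.le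
    have := mul_nonneg hz' p1.le
    linarith
  · simp only at h
    obtain ⟨h3, h4, h5⟩ := h
    subst h3
    subst h4
    have h6 : (0 : ℝ) < y - (2 * N * (0 : ℤ) - N ^ 2 * (0 : ℤ)) := by
      simp
      exact_mod_cast h5
    have := mul_pos h6 hb
    have := mul_nonneg h1' hp.le
    have := mul_nonneg hz' p1.le
    linarith

theorem inK_mid (N : ℤ) (x y z m : ℤ) (hz : 0 < z) (h1 : N * z < x)
    (hm2 : m ≤ 2 * N) (h2 : m * x ≤ y) (h3 : x ≤ m * z) (hN : 1 ≤ N) :
    InK N (x, y, z) := by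
  intro a b c hm hb hp
  obtain ⟨j, r, hr0, hrz, hx⟩ : ∃ j r : ℤ, 0 ≤ r ∧ r < z ∧ x = j * z + r :=
    ⟨x / z, x % z, Int.emod_nonneg _ hz.ne', Int.emod_lt_of_pos _ hz, by
      have := Int.mul_ediv_add_emod x z
      linarith [mul_comm z (x / z)]⟩
  have hjN : N ≤ j := by
    by_contra hcon
    push Not at hcon
    have : (j + 1) * z ≤ N * z := mul_le_mul_of_nonneg_right (by omega) hz.le
    nlinarith
  have hjm : j ≤ m := by
    by_contra hcon
    push Not at hcon
    have : (m + 1) * z ≤ j * z := mul_le_mul_of_nonneg_right (by omega) hz.le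
    nlinarith
  change 0 < a * (x : ℝ) + b * y + c * z
  have pj := hm j hjN (by omega)
  have e : a * (x : ℝ) + b * y + c * z = (z - r) * (a * j + b * (j : ℝ) ^ 2 + c) +
      r * (a * (j + 1 : ℤ) + b * ((j + 1 : ℤ) : ℝ) ^ 2 + c) +
      (y - (z * j ^ 2 + r * (2 * j + 1))) * b := by
    rw [hx]; push_cast; ring
  rw [e]
  have hzr : (0 : ℝ) < z - r := by
    have : (r : ℝ) < z := by exact_mod_cast hrz
    linarith
  have q1 := mul_pos hzr pj
  rcases eq_or_lt_of_le hjm with hj | hj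
  · subst hj
    have hr : r = 0 := by nlinarith
    subst hr
    have h4 : (0 : ℝ) ≤ y - (z * j ^ 2 + (0 : ℤ) * (2 * j + 1)) := by
      have : j * (j * z + 0) ≤ y := by rw [← hx]; exact h2
      have h5 : ((j * (j * z + 0) : ℤ) : ℝ) ≤ y := by exact_mod_cast this
      push_cast at h5 ⊢
      nlinarith
    have := mul_nonneg h4 hb.le
    simp only [Int.cast_zero, zero_mul, sub_zero, add_zero] at *
    linarith
  · have pj1 := hm (j + 1) (by omega) (by omega)
    have hr0' : (0 : ℝ) ≤ r := by exact_mod_cast hr0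
    have q2 := mul_nonneg hr0' pj1.le
    have h4 : z * j ^ 2 + r * (2 * j + 1) ≤ y := by
      refine le_trans ?_ h2
      rw [hx]
      obtain ⟨e, he⟩ : ∃ e : ℤ, m = j + 1 + e := ⟨m - (j + 1), by ring⟩
      have he0 : 0 ≤ e := by omega
      subst he
      have hj0 : 0 ≤ j := by omega
      have t1 : 0 ≤ j * z * e := by positivity
      have t2 : 0 ≤ e * r := by positivity
      have t3 : 0 ≤ j * (z - r) := mul_nonneg hj0 (by omega)
      nlinarith
    have h5 : (0 : ℝ) ≤ y - (z * j ^ 2 + r * (2 * j + 1)) := by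
      have : ((z * j ^ 2 + r * (2 * j + 1) : ℤ) : ℝ) ≤ y := by exact_mod_cast h4
      push_cast at this
      linarith
    have q3 := mul_nonneg h5 hb.le
    linarith

theorem conf_left (N : ℤ) (hN : 1 ≤ N) (x y z : ℤ) (hz : 0 ≤ z) (h1 : x ≤ N * z)
    (h2 : y < 2 * N * x - N ^ 2 * z) : Conf N (x, 2 * N * x - N ^ 2 * z, z) (x, y, z) := by
  refine ⟨le_max_left _ _, le_max_left _ _, le_max_left _ _, le_max_left _ _, ?_⟩
  intro s hs1 hs2
  simp only
  have k1 : (2 * N - s) * x ≤ N ^ 2 * z := by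
    have t1 : (2 * N - s) * x ≤ (2 * N - s) * (N * z) :=
      mul_le_mul_of_nonneg_left h1 (by omega)
    have t2 : (2 * N - s) * (N * z) ≤ N * (N * z) :=
      mul_le_mul_of_nonneg_right (by omega) (by positivity)
    nlinarith
  have k2 : 0 ≤ (s + 1) * z := mul_nonneg (by omega) hz
  refine ⟨?_, ?_, ?_, ?_⟩
  · refine le_trans ?_ (le_max_right _ _)
    nlinarith
  · refine le_trans ?_ (le_max_left _ _)
    linarith
  · refine le_trans ?_ (le_max_right _ _)
    nlinarith
  · refine le_trans ?_ (le_max_left _ _)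
    linarith

theorem conf_step (N : ℤ) (hN : 1 ≤ N) (x y z s : ℤ) (hz : 0 ≤ z) (h1 : N * z < x)
    (hs1 : N ≤ s) (hs2 : s ≤ 2 * N)
    (h2 : s = N ∨ (s - 1) * x + s * z < y) (h3 : s = 2 * N ∨ y < (s + 1) * x) :
    Conf N (x - 1, y - s, z) (x, y, z) := by
  have hx : 1 ≤ x := by nlinarith
  refine ⟨le_max_left _ _, le_max_left _ _, ?_, ?_, ?_⟩
  · refine le_trans ?_ (le_max_right _ _)
    simp only; linarith
  · refine le_trans ?_ (le_max_left _ _)
    simp only; linarith
  intro t ht1 ht2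
  simp only
  rcases lt_trichotomy t s with hts | hts | hts
  · -- t < s
    have h2' : (s - 1) * x + s * z < y := by
      rcases h2 with h | h
      · omega
      · exact h
    obtain ⟨e, he⟩ : ∃ e : ℤ, s = t + 1 + e := ⟨s - (t + 1), by ring⟩
    have he0 : 0 ≤ e := by omega
    subst he
    have k1 : 0 ≤ e * (x - 1) := mul_nonneg he0 (by omega)
    have k2 : 0 ≤ e * z := mul_nonneg he0 hz
    have k3 : 0 ≤ (t + 1) * z := mul_nonneg (by omega) hz
    refine ⟨?_, ?_, ?_, ?_⟩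
    · refine le_trans ?_ (le_max_left _ _)
      nlinarith
    · refine le_trans ?_ (le_max_right _ _)
      nlinarith
    · refine le_trans ?_ (le_max_left _ _)
      nlinarith
    · refine le_trans ?_ (le_max_right _ _)
      nlinarith
  · subst hts
    refine ⟨?_, ?_, ?_, ?_⟩ <;>
    · refine le_trans (le_of_eq ?_) (le_max_left _ _)
      ring
  · have h3' : y < (s + 1) * x := by
      rcases h3 with h | h
      · omega
      · exact h
    obtain ⟨e, he⟩ : ∃ e : ℤ, t = s + 1 + e := ⟨t - (s + 1), by ring⟩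
    have he0 : 0 ≤ e := by omega
    subst he
    have k1 : 0 ≤ e * (x - 1) := mul_nonneg he0 (by omega)
    have k3 : 0 ≤ (s + 1 + e + 1) * z := mul_nonneg (by omega) hz
    refine ⟨?_, ?_, ?_, ?_⟩
    · refine le_trans ?_ (le_max_right _ _)
      nlinarith
    · refine le_trans ?_ (le_max_left _ _)
      nlinarith
    · refine le_trans ?_ (le_max_right _ _)
      nlinarith
    · refine le_trans ?_ (le_max_left _ _)
      nlinarith

theorem exists_mid (N : ℤ) (hN : 1 ≤ N) (x y z : ℤ)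
    (hno : ∀ s : ℤ, N ≤ s → s ≤ 2 * N →
      ¬ ((s = N ∨ (s - 1) * x + s * z < y) ∧ (s = 2 * N ∨ y < (s + 1) * x))) :
    ∃ m : ℤ, N < m ∧ m ≤ 2 * N ∧ m * x ≤ y ∧ y ≤ (m - 1) * x + m * z := by
  by_contra hcon
  push Not at hcon
  have step : ∀ j : ℕ, (j : ℤ) ≤ N - 1 → (N + j + 1) * x ≤ y := by
    intro j
    induction j with
    | zero =>
      intro _
      have := hno N le_rfl (by omega)
      push Not at this
      have h2 := (this (Or.inl rfl)).2
      simpa using h2
    | succ j ih =>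
      intro hj
      have h1 := ih (by push_cast at hj; omega)
      have h2 := hcon (N + j + 1) (by omega) (by push_cast at hj; omega) h1
      have h3 := hno (N + j + 1) (by omega) (by push_cast at hj; omega)
      push Not at h3
      have h4 := (h3 (Or.inr (by linarith))).2
      push_cast
      linarith
  have h1 := step (N - 1).toNat (by omega)
  have e1 : (((N - 1).toNat : ℕ) : ℤ) = N - 1 := by omega
  rw [e1] at h1
  have h1' : (2 * N) * x ≤ y := by
    have : N + (N - 1) + 1 = 2 * N := by ring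
    rw [this] at h1
    exact h1
  have h2 := hcon (2 * N) (by omega) le_rfl h1'
  exact hno (2 * N) (by omega) le_rfl ⟨Or.inr h2, Or.inl rfl⟩

theorem claimA (N : ℤ) (hN : 1 ≤ N) : ∀ (k : ℕ) (x y z : ℤ), (x - N * z).toNat = k →
    Pos (x, y, z) → ∃ v : ℤ × ℤ × ℤ, Pos v ∧ InK N v ∧ Conf N v (x, y, z) := by
  intro k
  induction k using Nat.strong_induction_on with
  | _ k ih =>
    intro x y z hk hpos
    have hz : 0 ≤ z := by
      rcases hpos with h | h | h
      · exact h.le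
      · exact h.1.ge
      · exact h.1.ge
    rcases le_or_gt x (N * z) with h1 | h1
    · rcases le_or_gt (2 * N * x - N ^ 2 * z) y with h2 | h2
      · exact ⟨_, hpos, inK_left N hN x y z hpos h1 h2, Conf_refl _ _⟩
      · have hpos' : Pos (x, 2 * N * x - N ^ 2 * z, z) := by
          rcases hpos with h | h | h
          · exact Or.inl h
          · exact Or.inr (Or.inl h)
          · exfalso
            simp only at h
            obtain ⟨h3, h4, h5⟩ := h
            subst h3; subst h4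
            simp at h2
            omega
        exact ⟨_, hpos', inK_left N hN x _ z hpos' h1 le_rfl, conf_left N hN x y z hz h1 h2⟩
    · have hz' : 0 < z := by
        rcases hpos with h | h | h
        · exact h
        · simp only at h
          obtain ⟨h3, h4⟩ := h
          subst h3
          simp at h1
          omega
        · simp only at h
          obtain ⟨h3, h4, h5⟩ := h
          subst h3; subst h4
          simp at h1
      by_cases hex : ∃ s : ℤ, N ≤ s ∧ s ≤ 2 * N ∧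
          ((s = N ∨ (s - 1) * x + s * z < y) ∧ (s = 2 * N ∨ y < (s + 1) * x))
      · obtain ⟨s, hs1, hs2, hs3, hs4⟩ := hex
        obtain ⟨v, hv1, hv2, hv3⟩ := ih ((x - 1) - N * z).toNat (by omega) (x - 1) (y - s) z rfl
          (Or.inl hz')
        exact ⟨v, hv1, hv2, Conf_trans hv3 (conf_step N hN x y z s hz h1 hs1 hs2 hs3 hs4)⟩
      · obtain ⟨m, hm1, hm2, hm3, hm4⟩ := exists_mid N hN x y z (by
          intro s hs1 hs2 hs3
          exact hex ⟨s, hs1, hs2, hs3⟩)
        refine ⟨_, hpos, inK_mid N x y z m hz' h1 hm2 hm3 ?_ hN, Conf_refl _ _⟩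
        nlinarith

/-- the fibre of the binomial of `V_m` has exactly two elements -/
theorem claimB (N : ℤ) (hN : 1 ≤ N) (m : ℤ) (hm1 : N < m) (hm2 : m ≤ 2 * N) (x y z : ℤ)
    (h : Conf N (x, y, z) (m, m ^ 2, 1)) : (x, y, z) = (0, 0, 0) ∨ (x, y, z) = (m, m ^ 2, 1) := by
  obtain ⟨a1, a2, a3, a4, a5⟩ := h
  obtain ⟨c1, c2, -, -⟩ := a5 m (by omega) (by omega)
  obtain ⟨-, -, c3, c4⟩ := a5 (m - 1) (by omega) (by omega)
  simp only at a1 a2 c1 c2 c3 c4
  have e1 : m ^ 2 - m * m = 0 := by ring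
  have e2 : m * m - m ^ 2 = 0 := by ring
  have e3 : m ^ 2 - (m - 1) * m - (m - 1 + 1) * 1 = 0 := by ring
  have e4 : (m - 1) * m + (m - 1 + 1) * 1 - m ^ 2 = 0 := by ring
  rw [e1] at c1
  rw [e2] at c2
  rw [e3] at c3
  rw [e4] at c4
  simp only [max_self] at c1 c2 c3 c4
  have hz : z = 0 ∨ z = 1 := by omega
  have hy : y = m * x := by linarith
  have hx : x = m * z := by nlinarith
  rcases hz with h | h
  · left
    subst h
    simp at hx
    subst hx
    simp at hy
    subst hy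
    rfl
  · right
    subst h
    simp at hx
    subst hx
    rw [hy]
    ring_nf


universe u

/-- the lexicographic order, in an arbitrary universe -/
noncomputable def lexU (n : ℕ) : MonomialOrder.{0, u} (Fin n) where
  syn := ULift.{u} (Lex (Fin n →₀ ℕ))
  linearOrderSyn := LinearOrder.lift' (fun a => a.down) ULift.down_injective
  isOrderedAddMonoid_syn := by
    constructor
    · intro a b h c
      exact add_le_add_left (α := Lex (Fin n →₀ ℕ)) h c.down
    · intro a b h c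
      exact add_le_add_right (α := Lex (Fin n →₀ ℕ)) h c.down
  toSyn :=
  { toFun := fun a => ULift.up (toLex a)
    invFun := fun a => ofLex a.down
    left_inv := fun a => rfl
    right_inv := fun a => rfl
    map_add' := fun a b => rfl }
  toSyn_monotone := fun a b h => Finsupp.toLex_monotone h
  wellFoundedLT_syn := by
    constructor
    exact InvImage.wf (fun a : ULift.{u} (Lex (Fin n →₀ ℕ)) => a.down)
      (IsWellFounded.wf (r := (· < ·)))

theorem lexU_lt_iff (n : ℕ) (a b : Fin n →₀ ℕ) :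
    (lexU.{u} n).toSyn b < (lexU.{u} n).toSyn a ↔ toLex b < toLex a := Iff.rfl

/-- membership in the lattice -/
def Lat (N n : ℕ) : Submodule ℤ (Fin n → ℤ) := LinearMap.range (Phi N n)

theorem pos_of_lt (N n : ℕ) (hn : 9 ≤ n) (a b : Fin n →₀ ℕ) (v : ℤ × ℤ × ℤ)
    (h : df a b = Phi N n v) (hv : Pos v) :
    (lexU.{u} n).toSyn b < (lexU.{u} n).toSyn a := by
  rw [lexU_lt_iff, Finsupp.Lex.lt_iff]
  have e : ∀ i : Fin n, (a i : ℤ) - b i = rowv N i.val v := fun i => congrFun h i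
  rcases hv with h1 | h1 | h1
  · refine ⟨⟨0, by omega⟩, ?_, ?_⟩
    · intro j hj
      exact absurd hj (by simp [Fin.lt_def])
    · have := e ⟨0, by omega⟩
      simp only [rowv] at this
      change b ⟨0, by omega⟩ < a ⟨0, by omega⟩
      omega
  · refine ⟨⟨1, by omega⟩, ?_, ?_⟩
    · intro j hj
      have hj0 : j = ⟨0, by omega⟩ := by
        apply Fin.ext
        simp only [Fin.lt_def] at hj
        simp only
        omega
      rw [hj0]
      have := e ⟨0, by omega⟩
      simp only [rowv] at this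
      change b ⟨0, by omega⟩ = a ⟨0, by omega⟩
      omega
    · have := e ⟨1, by omega⟩
      simp only [rowv, h1.1] at this
      change b ⟨1, by omega⟩ < a ⟨1, by omega⟩
      omega
  · refine ⟨⟨2, by omega⟩, ?_, ?_⟩
    · intro j hj
      simp only [Fin.lt_def] at hj
      have hj01 : j = ⟨0, by omega⟩ ∨ j = ⟨1, by omega⟩ := by
        rcases Nat.lt_or_ge j.val 1 with h | h
        · left; apply Fin.ext; simp only; omega
        · right; apply Fin.ext; simp only; omega
      rcases hj01 with hj0 | hj0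
      · rw [hj0]
        have := e ⟨0, by omega⟩
        simp only [rowv] at this
        change b ⟨0, by omega⟩ = a ⟨0, by omega⟩
        omega
      · rw [hj0]
        have := e ⟨1, by omega⟩
        simp only [rowv, h1.1, h1.2.1] at this
        change b ⟨1, by omega⟩ = a ⟨1, by omega⟩
        omega
    · have := e ⟨2, by omega⟩
      simp only [rowv, h1.2.1] at this
      change b ⟨2, by omega⟩ < a ⟨2, by omega⟩
      omega

theorem pos_neg (v : ℤ × ℤ × ℤ) (h : ¬ Pos v) : v = 0 ∨ Pos (-v) := by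
  obtain ⟨x, y, z⟩ := v
  simp only [Pos, Prod.neg_mk] at h ⊢
  rw [Prod.mk_eq_zero, Prod.mk_eq_zero]
  omega

theorem Pos_of_lt (N n : ℕ) (hn : 9 ≤ n) (a b : Fin n →₀ ℕ) (v : ℤ × ℤ × ℤ)
    (h : df a b = Phi N n v)
    (hlt : (lexU.{u} n).toSyn b < (lexU.{u} n).toSyn a) :
    Pos v := by
  by_contra hcon
  rcases pos_neg v hcon with h0 | h0
  · subst h0
    rw [map_zero] at h
    have : a = b := by
      ext i
      have := congrFun h i
      simp only [df, Pi.zero_apply] at this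
      omega
    subst this
    exact lt_irrefl _ hlt
  · have h' : df b a = Phi N n (-v) := by
      rw [map_neg, ← h]
      ext i
      simp [df]
    exact lt_asymm hlt (pos_of_lt.{u} N n hn b a (-v) h' h0)

/-- the functional on `ℤ³` induced by a weight vector -/
noncomputable def lam (N n : ℕ) (w : Fin n → ℝ) (v : ℤ × ℤ × ℤ) : ℝ := pr w (Phi N n v)

theorem pr_add_left {n : ℕ} (w w' : Fin n → ℝ) (u : Fin n → ℤ) :
    pr (w + w') u = pr w u + pr w' u := by
  unfold pr
  rw [← Finset.sum_add_distrib]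
  exact Finset.sum_congr rfl (fun i _ => by simp; ring)

theorem pr_smul_left {n : ℕ} (c : ℝ) (w : Fin n → ℝ) (u : Fin n → ℤ) :
    pr (c • w) u = c * pr w u := by
  unfold pr
  rw [Finset.mul_sum]
  exact Finset.sum_congr rfl (fun i _ => by simp; ring)

theorem pr_add_right {n : ℕ} (w : Fin n → ℝ) (u u' : Fin n → ℤ) :
    pr w (u + u') = pr w u + pr w u' := by
  unfold pr
  rw [← Finset.sum_add_distrib]
  exact Finset.sum_congr rfl (fun i _ => by simp; ring)

theorem pr_smul_right {n : ℕ} (c : ℤ) (w : Fin n → ℝ) (u : Fin n → ℤ) :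
    pr w (c • u) = c * pr w u := by
  unfold pr
  rw [Finset.mul_sum]
  exact Finset.sum_congr rfl (fun i _ => by simp; ring)

theorem lam_expand (N n : ℕ) (w : Fin n → ℝ) (v : ℤ × ℤ × ℤ) :
    lam N n w v = lam N n w (1, 0, 0) * v.1 + lam N n w (0, 1, 0) * v.2.1
      + lam N n w (0, 0, 1) * v.2.2 := by
  obtain ⟨x, y, z⟩ := v
  have : ((x, y, z) : ℤ × ℤ × ℤ) = x • ((1, 0, 0) : ℤ × ℤ × ℤ) + (y • ((0, 1, 0) : ℤ × ℤ × ℤ)
      + z • ((0, 0, 1) : ℤ × ℤ × ℤ)) := by
    simp
  unfold lam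
  conv_lhs => rw [this]
  rw [map_add, map_add, map_smul, map_smul, map_smul, pr_add_right, pr_add_right, pr_smul_right,
    pr_smul_right, pr_smul_right]
  ring

/-- a weight vector inducing a prescribed functional -/
noncomputable def wOf (N n : ℕ) (a b c : ℝ) : Fin n → ℝ := fun i =>
  if i.val = 0 then c + N * (a + N * b) else if i.val = 1 then -(a + N * b) else
    if i.val = 2 then b else 0

theorem lam_wOf (N n : ℕ) (hn : 9 ≤ n) (a b c : ℝ) (v : ℤ × ℤ × ℤ) :
    lam N n (wOf N n a b c) v = a * v.1 + b * v.2.1 + c * v.2.2 := by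
  obtain ⟨k, rfl⟩ : ∃ k, n = k + 3 := ⟨n - 3, by omega⟩
  unfold lam pr
  rw [Fin.sum_univ_succ, Fin.sum_univ_succ, Fin.sum_univ_succ]
  have hz : ∑ i : Fin k, wOf N (k + 3) a b c i.succ.succ.succ *
      ((Phi N (k + 3) v i.succ.succ.succ : ℤ) : ℝ) = 0 := by
    refine Finset.sum_eq_zero (fun i _ => ?_)
    have : wOf N (k + 3) a b c i.succ.succ.succ = 0 := by
      simp [wOf]
    rw [this, zero_mul]
  rw [hz]
  have w0 : wOf N (k + 3) a b c 0 = c + N * (a + N * b) := by simp [wOf]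
  have w1 : wOf N (k + 3) a b c (Fin.succ 0) = -(a + N * b) := by simp [wOf]
  have w2 : wOf N (k + 3) a b c (Fin.succ (Fin.succ 0)) = b := by
    have h2 : (Fin.succ (Fin.succ (0 : Fin (k + 1)))).val = 2 := rfl
    unfold wOf
    rw [h2]
    simp
  have p0 : Phi N (k + 3) v 0 = v.2.2 := rfl
  have p1 : Phi N (k + 3) v (Fin.succ 0) = N * v.2.2 - v.1 := rfl
  have p2 : Phi N (k + 3) v (Fin.succ (Fin.succ 0)) = v.2.1 - N * v.1 := rfl
  rw [w0, w1, w2, p0, p1, p2]
  push_cast
  ring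

/-- the open cone -/
def Oc (N n : ℕ) : Set (Fin n → ℝ) := {w | (∀ m : ℕ, m ∈ Finset.Icc N (2 * N) →
    0 < lam N n w ((m : ℤ), (m : ℤ) ^ 2, 1)) ∧ 0 < lam N n w (0, 1, 0) ∧
    0 < lam N n w (-1, -(2 * N), 0)}

/-- the closed cone -/
def Kc (N n : ℕ) : Set (Fin n → ℝ) := {w | (∀ m : ℕ, m ∈ Finset.Icc N (2 * N) →
    0 ≤ lam N n w ((m : ℤ), (m : ℤ) ^ 2, 1)) ∧ 0 ≤ lam N n w (0, 1, 0) ∧
    0 ≤ lam N n w (-1, -(2 * N), 0)}

/-- the weights with the right initial ideal -/
noncomputable def Tc (N n : ℕ) : Set (Fin n → ℝ) :=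
  {w | inW w (latIdeal (Lat N n)) = inO (lexU.{u} n) (latIdeal (Lat N n))}

theorem lam_pos_of_InK (N n : ℕ) (w : Fin n → ℝ) (hw : w ∈ Oc N n) (v : ℤ × ℤ × ℤ)
    (hv : InK N v) : 0 < lam N n w v := by
  obtain ⟨h1, h2, h3⟩ := hw
  rw [lam_expand]
  apply hv
  · intro m hm1 hm2
    obtain ⟨k, rfl⟩ : ∃ k : ℕ, m = k := ⟨m.toNat, by omega⟩
    have := h1 k (by rw [Finset.mem_Icc]; omega)
    rw [lam_expand] at this
    push_cast at this ⊢
    linarith
  · exact h2
  · rw [lam_expand] at h3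
    push_cast at h3 ⊢
    linarith

theorem Oc_subset (N n : ℕ) (hN : 1 ≤ N) (hn : n = 4 * N + 9) : Oc N n ⊆ Tc.{u} N n := by
  intro w hw
  apply inW_eq_inO
  intro a b hab hlt
  obtain ⟨v, hv⟩ := hab
  have hpos := Pos_of_lt.{u} N n (by omega) a b v hv.symm hlt
  obtain ⟨v', h1, h2, h3⟩ := claimA N (by exact_mod_cast hN) _ v.1 v.2.1 v.2.2 rfl hpos
  have hle := le_of_Conf (n := n) (by omega) h3
  have hle2 : ∀ i, Phi N n v' i ≤ a i := by
    intro i
    refine (hle i).trans ?_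
    have e : (a i : ℤ) - b i = Phi N n v i := (congrFun hv i).symm
    change max (Phi N n v i) 0 ≤ _
    rw [← e]
    omega
  let c : Fin n →₀ ℕ := Finsupp.equivFunOnFinite.symm (fun i => ((a i : ℤ) - Phi N n v' i).toNat)
  have hc : df a c = Phi N n v' := by
    ext i
    have := hle2 i
    simp only [df, c, Finsupp.equivFunOnFinite_symm_apply_apply]
    omega
  refine ⟨c, ⟨v', hc.symm⟩, pos_of_lt.{u} N n (by omega) a c v' hc h1, ?_⟩
  have := lam_pos_of_InK N n w hw v' h2
  have e := wt_sub w a c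
  rw [hc] at e
  unfold lam at this
  linarith

theorem Tc_le (N n : ℕ) (hN : 1 ≤ N) (hn : n = 4 * N + 9) (m : ℕ) (hm1 : N < m) (hm2 : m ≤ 2 * N)
    (w : Fin n → ℝ) (hw : w ∈ Tc.{u} N n) : 0 ≤ lam N n w ((m : ℤ), (m : ℤ) ^ 2, 1) := by
  set v : ℤ × ℤ × ℤ := ((m : ℤ), (m : ℤ) ^ 2, 1) with hv
  let a : Fin n →₀ ℕ := Finsupp.equivFunOnFinite.symm (fun i => (Phi N n v i).toNat)
  let b : Fin n →₀ ℕ := Finsupp.equivFunOnFinite.symm (fun i => (-Phi N n v i).toNat)
  have hab : df a b = Phi N n v := by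
    ext i
    simp only [df, a, b, Finsupp.equivFunOnFinite_symm_apply_apply]
    omega
  have hposv : Pos v := Or.inl (by simp [hv])
  unfold lam
  rw [← hab]
  refine pr_nonneg_of_eq (Lat N n) (lexU.{u} n) w hw a b ⟨v, hab.symm⟩
    (pos_of_lt.{u} N n (by omega) a b v hab hposv) ?_
  rintro c ⟨u, hu⟩
  have hac : ∀ i, (a i : ℤ) - c i = rowv N i.val u := fun i => (congrFun hu i).symm
  have hai : ∀ i, (a i : ℤ) = max (rowv N i.val v) 0 := by
    intro i
    simp only [a, Finsupp.equivFunOnFinite_symm_apply_apply]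
    exact Int.toNat_eq_max _
  have hle : ∀ k : ℕ, k < n → rowv N k u ≤ max (rowv N k v) 0 := by
    intro k hk
    have h1 := hac ⟨k, hk⟩
    have h2 := hai ⟨k, hk⟩
    simp only at h1 h2
    omega
  have hconf : Conf N (u.1, u.2.1, u.2.2) ((m : ℤ), (m : ℤ) ^ 2, 1) := by
    refine ⟨hle 0 (by omega), hle 3 (by omega), hle 1 (by omega), hle 4 (by omega), ?_⟩
    intro s hs1 hs2
    obtain ⟨t, ht⟩ : ∃ t : ℕ, s = N + t := ⟨(s - N).toNat, by omega⟩
    subst ht
    have g0 := hle (4 * t + 0 + 5) (by omega)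
    have g1 := hle (4 * t + 1 + 5) (by omega)
    have g2 := hle (4 * t + 2 + 5) (by omega)
    have g3 := hle (4 * t + 3 + 5) (by omega)
    have d0 : (4 * t + 0) / 4 = t := by omega
    have d1 : (4 * t + 1) / 4 = t := by omega
    have d2 : (4 * t + 2) / 4 = t := by omega
    have d3 : (4 * t + 3) / 4 = t := by omega
    have m0 : (4 * t + 0) % 4 = 0 := by omega
    have m1 : (4 * t + 1) % 4 = 1 := by omega
    have m2 : (4 * t + 2) % 4 = 2 := by omega
    have m3 : (4 * t + 3) % 4 = 3 := by omega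
    simp only [rowv, m0, d0, if_true] at g0
    simp only [rowv, m1, d1, if_true] at g1
    simp only [rowv, m2, d2, if_true] at g2
    simp only [rowv, m3, d3] at g3
    norm_num at g0 g1 g2 g3
    refine ⟨?_, ?_, ?_, ?_⟩
    · simpa using g0
    · simpa using g1
    · simpa using g2
    · simpa using g3
  rcases claimB N (by exact_mod_cast hN) m (by exact_mod_cast hm1) (by exact_mod_cast hm2)
    u.1 u.2.1 u.2.2 hconf with h | h
  · left
    have hu0 : u = 0 := h
    ext i
    have := hac i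
    rw [hu0] at this
    have e : rowv N i.val 0 = 0 := by
      have := rowv_smul N i.val 0 0
      simpa using this
    rw [e] at this
    omega
  · right
    have hu0 : u = v := h
    ext i
    have h1 := hac i
    rw [hu0] at h1
    have h2 : (a i : ℤ) - b i = rowv N i.val v := congrFun hab i
    omega

theorem lam_add (N n : ℕ) (w w' : Fin n → ℝ) (v : ℤ × ℤ × ℤ) :
    lam N n (w + w') v = lam N n w v + lam N n w' v := pr_add_left _ _ _

theorem lam_smul (N n : ℕ) (c : ℝ) (w : Fin n → ℝ) (v : ℤ × ℤ × ℤ) :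
    lam N n (c • w) v = c * lam N n w v := pr_smul_left _ _ _

/-- an interior weight -/
theorem exists_Oc (N n : ℕ) (hn : 9 ≤ n) : ∃ w, w ∈ Oc N n := by
  refine ⟨wOf N n (-(2 * N + 1)) 1 ((2 * N + 1) ^ 2), ?_, ?_, ?_⟩
  · intro m _
    rw [lam_wOf N n hn]
    push_cast
    nlinarith [sq_nonneg ((m : ℝ) - (2 * N + 1)), sq_nonneg ((m : ℝ)), sq_nonneg (2 * (N : ℝ) + 1),
      mul_self_nonneg ((m : ℝ) - (2 * N + 1) / 2), Nat.cast_nonneg (α := ℝ) N]
  · rw [lam_wOf N n hn]; push_cast; norm_num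
  · rw [lam_wOf N n hn]; push_cast; linarith

open Filter Topology in
theorem Kc_subset_closure (N n : ℕ) (hn : 9 ≤ n) : Kc N n ⊆ closure (Oc N n) := by
  intro w hw
  obtain ⟨w1, h1⟩ := exists_Oc N n hn
  have ht : Tendsto (fun δ : ℝ => w + δ • w1) (𝓝[>] 0) (𝓝 (w + (0 : ℝ) • w1)) := by
    apply Tendsto.mono_left _ nhdsWithin_le_nhds
    exact (continuous_const.add (continuous_id.smul continuous_const)).tendsto 0
  rw [zero_smul, add_zero] at ht
  refine mem_closure_of_tendsto ht ?_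
  filter_upwards [self_mem_nhdsWithin] with δ hδ
  have hδ' : (0 : ℝ) < δ := hδ
  obtain ⟨a1, a2, a3⟩ := hw
  obtain ⟨b1, b2, b3⟩ := h1
  refine ⟨?_, ?_, ?_⟩
  · intro m hm
    rw [lam_add, lam_smul]
    have := a1 m hm
    have := mul_pos hδ' (b1 m hm)
    linarith
  · rw [lam_add, lam_smul]
    have := mul_pos hδ' b2
    linarith
  · rw [lam_add, lam_smul]
    have := mul_pos hδ' b3
    linarith

open Filter Topology in
theorem ev_pos (a b : ℝ) (ha : 0 < a) : ∀ᶠ ε : ℝ in 𝓝 0, 0 < a + ε * b := by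
  have : Tendsto (fun ε : ℝ => a + ε * b) (𝓝 0) (𝓝 (a + 0 * b)) :=
    (continuous_const.add (continuous_id.mul continuous_const)).tendsto 0
  rw [zero_mul, add_zero] at this
  exact this.eventually_const_lt ha

open Filter Topology in
/-- perturbation -/
theorem perturb (N n : ℕ) (w h : Fin n → ℝ) (m0 : ℕ)
    (hw1 : ∀ m ∈ Finset.Icc N (2 * N), m ≠ m0 → 0 < lam N n w ((m : ℤ), (m : ℤ) ^ 2, 1))
    (hw2 : 0 < lam N n w (0, 1, 0)) (hw3 : 0 < lam N n w (-1, -(2 * N), 0))
    (hw4 : 0 ≤ lam N n w ((m0 : ℤ), (m0 : ℤ) ^ 2, 1))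
    (hh : 0 ≤ lam N n h ((m0 : ℤ), (m0 : ℤ) ^ 2, 1)) :
    ∃ ε : ℝ, 0 < ε ∧ w + ε • h ∈ Kc N n := by
  have e1 : ∀ᶠ ε : ℝ in 𝓝 0, ∀ m ∈ (Finset.Icc N (2 * N)).erase m0,
      0 < lam N n w ((m : ℤ), (m : ℤ) ^ 2, 1) + ε * lam N n h ((m : ℤ), (m : ℤ) ^ 2, 1) := by
    rw [Filter.eventually_all_finset]
    intro m hm
    rw [Finset.mem_erase] at hm
    exact ev_pos _ _ (hw1 m hm.2 hm.1)
  have e2 := ev_pos _ (lam N n h (0, 1, 0)) hw2
  have e3 := ev_pos _ (lam N n h (-1, -(2 * N), 0)) hw3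
  have e4 := (e1.and (e2.and e3))
  have e5 : ∀ᶠ ε : ℝ in 𝓝[>] 0, _ := (e4.filter_mono nhdsWithin_le_nhds).and self_mem_nhdsWithin
  obtain ⟨ε, ⟨h1, h2, h3⟩, h4⟩ := e5.exists
  have h4' : (0 : ℝ) < ε := h4
  refine ⟨ε, h4', ?_, ?_, ?_⟩
  · intro m hm
    rw [lam_add, lam_smul]
    by_cases hmm : m = m0
    · subst hmm
      have := mul_nonneg h4'.le hh
      linarith
    · exact (h1 m (Finset.mem_erase.mpr ⟨hmm, hm⟩)).le
  · rw [lam_add, lam_smul]
    exact h2.le
  · rw [lam_add, lam_smul]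
    exact h3.le

/-- the point in the relative interior of the facet -/
noncomputable def wS (N n m : ℕ) : Fin n → ℝ := wOf N n (-(2 * m)) 1 ((m : ℝ) ^ 2)

theorem lam_wS (N n m : ℕ) (hn : 9 ≤ n) (j : ℕ) :
    lam N n (wS N n m) ((j : ℤ), (j : ℤ) ^ 2, 1) = ((j : ℝ) - m) ^ 2 := by
  unfold wS
  rw [lam_wOf N n hn]
  push_cast
  ring

/-- the linear functional as an element of the dual -/
noncomputable def psi (N n m : ℕ) : (Fin n → ℝ) →ₗ[ℝ] ℝ where
  toFun w := lam N n w ((m : ℤ), (m : ℤ) ^ 2, 1)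
  map_add' w w' := lam_add _ _ _ _ _
  map_smul' c w := by
    rw [lam_smul]; rfl

theorem facet_count (N n : ℕ) (hN : 1 ≤ N) (hn : n = 4 * N + 9) (C : Set (Fin n → ℝ))
    (hC : C = closure (Tc.{u} N n)) :
    ((N : ℕ) : ℕ∞) ≤ Set.encard {F : Set (Fin n → ℝ) | ∃ c : Fin n → ℝ,
        (∀ w ∈ C, 0 ≤ ∑ i, c i * w i) ∧
        F = {w | w ∈ C ∧ ∑ i, c i * w i = 0} ∧
        Module.finrank ℝ (Submodule.span ℝ F) + 1 = Module.finrank ℝ (Submodule.span ℝ C)} := by
  classical
  have hn9 : 9 ≤ n := by omega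
  have hKC : Kc N n ⊆ C := by
    rw [hC]
    exact (Kc_subset_closure N n hn9).trans (closure_mono (Oc_subset.{u} N n hN hn))
  have hspanC : Submodule.span ℝ C = ⊤ := by
    rw [eq_top_iff]
    intro h _
    obtain ⟨w1, h1⟩ := exists_Oc N n hn9
    have hw1 : w1 ∈ C := hKC ⟨fun m hm => (h1.1 m hm).le, h1.2.1.le, h1.2.2.le⟩
    -- choose m0 outside the range so that the condition is void
    rcases le_total 0 (lam N n h ((N : ℤ), (N : ℤ) ^ 2, 1)) with hs | hs
    · obtain ⟨ε, hε, hmem⟩ := perturb N n w1 h N (fun m hm _ => h1.1 m hm) h1.2.1 h1.2.2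
        (h1.1 N (by rw [Finset.mem_Icc]; omega)).le hs
      have : h = ε⁻¹ • ((w1 + ε • h) - w1) := by
        rw [add_sub_cancel_left, smul_smul, inv_mul_cancel₀ hε.ne', one_smul]
      rw [this]
      exact Submodule.smul_mem _ _ (Submodule.sub_mem _ (Submodule.subset_span (hKC hmem))
        (Submodule.subset_span hw1))
    · obtain ⟨ε, hε, hmem⟩ := perturb N n w1 (-h) N (fun m hm _ => h1.1 m hm) h1.2.1 h1.2.2
        (h1.1 N (by rw [Finset.mem_Icc]; omega)).le (by
          have : (-h) = (-1 : ℝ) • h := by simp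
          rw [this, lam_smul]; linarith)
      have : h = (-ε⁻¹) • ((w1 + ε • (-h)) - w1) := by
        rw [add_sub_cancel_left, smul_smul, neg_mul, inv_mul_cancel₀ hε.ne']
        simp
      rw [this]
      exact Submodule.smul_mem _ _ (Submodule.sub_mem _ (Submodule.subset_span (hKC hmem))
        (Submodule.subset_span hw1))
  have hCm : ∀ m ∈ Finset.Icc (N + 1) (2 * N), ∀ w ∈ C, 0 ≤ psi N n m w := by
    intro m hm w hw
    rw [Finset.mem_Icc] at hm
    rw [hC] at hw
    have hcl : IsClosed {w : Fin n → ℝ | 0 ≤ psi N n m w} :=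
      isClosed_le continuous_const (LinearMap.continuous_of_finiteDimensional _)
    have : closure (Tc.{u} N n) ⊆ {w : Fin n → ℝ | 0 ≤ psi N n m w} := by
      apply closure_minimal _ hcl
      intro w hw
      exact Tc_le.{u} N n hN hn m (by omega) (by omega) w hw
    exact this hw
  let F : ℕ → Set (Fin n → ℝ) := fun m => {w | w ∈ C ∧ psi N n m w = 0}
  have hwS : ∀ m ∈ Finset.Icc (N + 1) (2 * N), wS N n m ∈ Kc N n ∧
      0 < lam N n (wS N n m) (0, 1, 0) ∧ 0 < lam N n (wS N n m) (-1, -(2 * N), 0) := by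
    intro m hm
    rw [Finset.mem_Icc] at hm
    have h2 : 0 < lam N n (wS N n m) (0, 1, 0) := by
      unfold wS; rw [lam_wOf N n hn9]; push_cast; norm_num
    have h3 : 0 < lam N n (wS N n m) (-1, -(2 * N), 0) := by
      unfold wS; rw [lam_wOf N n hn9]; push_cast
      have : ((N : ℝ) + 1) ≤ m := by exact_mod_cast hm.1
      linarith
    refine ⟨⟨?_, h2.le, h3.le⟩, h2, h3⟩
    intro j _
    rw [lam_wS N n m hn9]
    positivity
  have hFm : ∀ m ∈ Finset.Icc (N + 1) (2 * N), wS N n m ∈ F m := by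
    intro m hm
    refine ⟨hKC (hwS m hm).1, ?_⟩
    change lam N n (wS N n m) ((m : ℤ), (m : ℤ) ^ 2, 1) = 0
    rw [lam_wS N n m hn9]
    simp
  have hspanF : ∀ m ∈ Finset.Icc (N + 1) (2 * N),
      Submodule.span ℝ (F m) = LinearMap.ker (psi N n m) := by
    intro m hm
    apply le_antisymm
    · rw [Submodule.span_le]
      intro w hw
      exact hw.2
    · intro h hh
      rw [LinearMap.mem_ker] at hh
      have hh' : lam N n h ((m : ℤ), (m : ℤ) ^ 2, 1) = 0 := hh
      obtain ⟨ε, hε, hmem⟩ := perturb N n (wS N n m) h m (by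
        intro j _ hjm
        rw [lam_wS N n m hn9]
        have : (j : ℝ) - m ≠ 0 := by
          rw [sub_ne_zero]
          exact_mod_cast hjm
        positivity) (hwS m hm).2.1 (hwS m hm).2.2 (by
          rw [lam_wS N n m hn9]; positivity) hh'.ge
      have hmem2 : wS N n m + ε • h ∈ F m := by
        refine ⟨hKC hmem, ?_⟩
        rw [map_add, map_smul, hh, smul_zero, add_zero]
        exact (hFm m hm).2
      have : h = ε⁻¹ • ((wS N n m + ε • h) - wS N n m) := by
        rw [add_sub_cancel_left, smul_smul, inv_mul_cancel₀ hε.ne', one_smul]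
      rw [this]
      exact Submodule.smul_mem _ _ (Submodule.sub_mem _ (Submodule.subset_span hmem2)
        (Submodule.subset_span (hFm m hm)))
  have hinj : Set.InjOn F (Finset.Icc (N + 1) (2 * N) : Finset ℕ) := by
    intro m hm m' hm' heq
    have h1 := hFm m hm
    rw [heq] at h1
    have h2 : lam N n (wS N n m) ((m' : ℤ), (m' : ℤ) ^ 2, 1) = 0 := h1.2
    rw [lam_wS N n m hn9] at h2
    have h3 : (m' : ℝ) - m = 0 := by
      simpa using h2
    have h4 : (m' : ℝ) = m := by linarith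
    exact_mod_cast h4.symm
  have hsub : F '' (Finset.Icc (N + 1) (2 * N) : Finset ℕ) ⊆
      {F : Set (Fin n → ℝ) | ∃ c : Fin n → ℝ,
        (∀ w ∈ C, 0 ≤ ∑ i, c i * w i) ∧
        F = {w | w ∈ C ∧ ∑ i, c i * w i = 0} ∧
        Module.finrank ℝ (Submodule.span ℝ F) + 1 =
          Module.finrank ℝ (Submodule.span ℝ C)} := by
    rintro _ ⟨m, hm, rfl⟩
    have hm' : m ∈ Finset.Icc (N + 1) (2 * N) := hm
    let c : Fin n → ℝ := fun i => (Phi N n ((m : ℤ), (m : ℤ) ^ 2, 1) i : ℝ)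
    have hc : ∀ w : Fin n → ℝ, ∑ i, c i * w i = psi N n m w := by
      intro w
      change _ = lam N n w _
      unfold lam pr
      exact Finset.sum_congr rfl (fun i _ => mul_comm _ _)
    refine ⟨c, ?_, ?_, ?_⟩
    · intro w hw
      rw [hc]
      exact hCm m hm' w hw
    · ext w
      simp only [F, Set.mem_ofPred_eq, hc]
    · rw [hspanF m hm', hspanC, finrank_top]
      have hne : psi N n m ≠ 0 := by
        obtain ⟨w1, h1⟩ := exists_Oc N n hn9
        intro h0
        rw [Finset.mem_Icc] at hm'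
        have h2 := h1.1 m (by rw [Finset.mem_Icc]; omega)
        have h3 : psi N n m w1 = 0 := by rw [h0]; rfl
        have h4 : lam N n w1 ((m : ℤ), (m : ℤ) ^ 2, 1) = 0 := h3
        linarith
      exact Module.Dual.finrank_ker_add_one_of_ne_zero hne
  calc ((N : ℕ) : ℕ∞) = Set.encard (F '' (Finset.Icc (N + 1) (2 * N) : Finset ℕ)) := by
        rw [hinj.encard_image, Set.encard_coe_eq_coe_finsetCard, Nat.card_Icc]
        congr 1
        omega
    _ ≤ _ := Set.encard_le_encard hsub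

theorem Phi_inj (N n : ℕ) (hn : 9 ≤ n) : Function.Injective (Phi N n) := by
  rw [← LinearMap.ker_eq_bot, LinearMap.ker_eq_bot']
  intro v hv
  have h0 : v.2.2 = 0 := congrFun hv ⟨0, by omega⟩
  have h1 : (N : ℤ) * v.2.2 - v.1 = 0 := congrFun hv ⟨1, by omega⟩
  have h2 : v.2.1 - (N : ℤ) * v.1 = 0 := congrFun hv ⟨2, by omega⟩
  rw [h0] at h1
  have h3 : v.1 = 0 := by linarith
  rw [h3] at h2
  have h4 : v.2.1 = 0 := by linarith
  obtain ⟨x, y, z⟩ := v
  simp only at h0 h3 h4
  rw [h0, h3, h4]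
  rfl

theorem finrank_Lat (N n : ℕ) (hn : 9 ≤ n) : Module.finrank ℤ (Lat N n) = 3 := by
  unfold Lat
  rw [LinearMap.finrank_range_of_inj (Phi_inj N n hn)]
  simp

theorem Lat_saturated (N n : ℕ) (hn : 9 ≤ n) :
    ∀ v : Fin n → ℤ, ∀ c : ℤ, c ≠ 0 → c • v ∈ Lat N n → v ∈ Lat N n := by
  rintro v c hc ⟨u, hu⟩
  have h0 : u.2.2 = c * v ⟨0, by omega⟩ := congrFun hu ⟨0, by omega⟩
  have h1 : (N : ℤ) * u.2.2 - u.1 = c * v ⟨1, by omega⟩ := congrFun hu ⟨1, by omega⟩
  have h2 : u.2.1 - (N : ℤ) * u.1 = c * v ⟨2, by omega⟩ := congrFun hu ⟨2, by omega⟩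
  have hu1 : u.1 = c * (N * v ⟨0, by omega⟩ - v ⟨1, by omega⟩) := by
    rw [h0] at h1; linarith
  have hu2 : u.2.1 = c * (v ⟨2, by omega⟩ + N * (N * v ⟨0, by omega⟩ - v ⟨1, by omega⟩)) := by
    rw [hu1] at h2; linarith
  let u' : ℤ × ℤ × ℤ := (N * v ⟨0, by omega⟩ - v ⟨1, by omega⟩,
    v ⟨2, by omega⟩ + N * (N * v ⟨0, by omega⟩ - v ⟨1, by omega⟩), v ⟨0, by omega⟩)
  have hcu : u = c • u' := by
    obtain ⟨x, y, z⟩ := u
    simp only at h0 hu1 hu2
    simp only [u', Prod.smul_mk, smul_eq_mul]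
    rw [hu1, hu2, h0]
  refine ⟨u', ?_⟩
  rw [hcu, map_smul] at hu
  exact smul_right_injective _ hc hu

theorem Lat_pointed (N n : ℕ) (hn : 9 ≤ n) :
    ∀ v ∈ Lat N n, (∀ i, 0 ≤ v i) → v = 0 := by
  rintro v ⟨u, rfl⟩ hpos
  have h0 : 0 ≤ u.2.2 := hpos ⟨0, by omega⟩
  have h3 : 0 ≤ - u.2.2 := hpos ⟨3, by omega⟩
  have h1 : 0 ≤ (N : ℤ) * u.2.2 - u.1 := hpos ⟨1, by omega⟩
  have h4 : 0 ≤ u.1 - (N : ℤ) * u.2.2 := hpos ⟨4, by omega⟩
  have h2 : 0 ≤ u.2.1 - (N : ℤ) * u.1 := hpos ⟨2, by omega⟩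
  have h6 : 0 ≤ rowv N (1 + 5) u := hpos ⟨6, by omega⟩
  simp [rowv] at h6
  have hz : u.2.2 = 0 := by omega
  rw [hz] at h1 h4
  have hx : u.1 = 0 := by linarith
  rw [hx] at h2 h6
  have hy : u.2.1 = 0 := by linarith
  have hu : u = 0 := by
    obtain ⟨x, y, z⟩ := u
    simp only at hx hy hz
    rw [hx, hy, hz]
    rfl
  rw [hu, map_zero]



end Pool.Agent.Work.MP_b9f336_ag
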